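import Pool.Agent.Mg.Fdcfa1b.G991a9a

set_option autoImplicit false

namespace Pool.Agent.Results.MP_dcfa1b_co.HalfDegree

open Pool.Agent.MP_dcfa1b_co

/-- A permutation array of order `n = q - 2` with the shift property (S) whose dots are
`(i, j)` with `φ(α^i) = β^j`, for primitive `α, β` of a field with `q` elements and a polynomial `φ`
of degree `d` with `2 d + 3 < q`, has no two dots differing by an element of the subgroup
`{(a, a^d)}`, and `d` is prime to `q - 1`. -/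
theorem result :
    ∀ (n : ℕ) (f : Equiv.Perm (Fin n)),
      (∀ s t : ℕ, ∀ i j k l : Fin n, i ≠ j → k ≠ l →
        (((((i : ℕ) + 1 + s) % (n + 1) : ℕ) : ℤ) - ((((j : ℕ) + 1 + s) % (n + 1) : ℕ) : ℤ)
            = ((((k : ℕ) + 1 + s) % (n + 1) : ℕ) : ℤ) - ((((l : ℕ) + 1 + s) % (n + 1) : ℕ) : ℤ) ∧
         ((((f i : ℕ) + 1 + t) % (n + 1) : ℕ) : ℤ) - ((((f j : ℕ) + 1 + t) % (n + 1) : ℕ) : ℤ)
            = ((((f k : ℕ) + 1 + t) % (n + 1) : ℕ) : ℤ) - ((((f l : ℕ) + 1 + t) % (n + 1) : ℕ) : ℤ)) →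
        i = k ∧ j = l) →
      ∀ (F : Type) [Field F] [Fintype F], Fintype.card F = n + 2 →
      ∀ α β : F, orderOf α = n + 1 → orderOf β = n + 1 →
      ∀ φ : Polynomial F, 2 * φ.natDegree + 3 < n + 2 →
        (∀ i : Fin n, φ.eval (α ^ ((i : ℕ) + 1)) = β ^ ((f i : ℕ) + 1)) →
        Nat.Coprime φ.natDegree (n + 1) ∧
          ∀ i j : Fin n, i ≠ j →
            (α ^ ((i : ℕ) + 1)) ^ φ.natDegree * β ^ ((f j : ℕ) + 1) ≠
              (α ^ ((j : ℕ) + 1)) ^ φ.natDegree * β ^ ((f i : ℕ) + 1) := by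
  intro n f hS F _ _ hq α β hα hβ φ hbig hφ
  classical
  have h := sid_of_shift n f hS hq α β hα hβ (fun x => φ.eval x) hφ
  obtain ⟨h1, h2⟩ := third φ h (by omega)
  have fα : IsOfFinOrder α := orderOf_pos_iff.1 (by omega)
  have hU : ∀ i : Fin n, α ^ ((i : ℕ) + 1) ≠ 0 ∧ α ^ ((i : ℕ) + 1) ≠ 1 := by
    intro i
    refine ⟨pow_ne_zero _ fα.isUnit.ne_zero, fun hh => ?_⟩
    have := Nat.le_of_dvd (by omega) (orderOf_dvd_of_pow_eq_one hh)
    have := i.2
    omega
  constructor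
  · have a1 : orderOf (α ^ φ.natDegree) = orderOf α := by
      rw [orderOf_eq_orderOf_iff]
      intro k
      constructor
      · intro hk
        apply h1
        rw [pow_right_comm, hk]
      · intro hk
        rw [pow_right_comm, hk, one_pow]
    rw [fα.orderOf_pow, hα] at a1
    rw [Nat.coprime_comm]
    exact (Nat.div_eq_self.1 a1).resolve_left (by omega)
  · intro i j hij hh
    rw [← hφ, ← hφ] at hh
    have a1 := h2 _ _ (hU i).1 (hU i).2 (hU j).1 (hU j).2 hh
    have a2 := i.2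
    have a3 := j.2
    have := pow_injOn_Iio_orderOf (x := α) (by simp only [Set.mem_Iio]; omega)
      (by simp only [Set.mem_Iio]; omega) a1
    exact hij (Fin.ext (by omega))

end Pool.Agent.Results.MP_dcfa1b_co.HalfDegree
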